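import Pool.Agent.X25.Pk.AllD

/-!
# Packing equal-length progressions with all differences up to `n`: the conjecture is false

`liminf M(n) ln n / n³ ≥ 19/108 > 1/6`.

If a packing of `B_1, ..., B_n` into `[m]` is given, then for one of the two classes modulo `2` the odd primes
`p < n`, with `p` replaced by `2 p` for those `p < n/3` for which the translate of `B_{2 p}` lies in this class, form
a set of differences such that any two of the progressions which overlap in an interval of length at least the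
product of the differences intersect.  This gives `m ≥ ∑ ((n - 1) d - d²)` over these differences `d`.
-/

set_option autoImplicit false

namespace Pool.Agent.Results.MP_0e9c37_co.ConjectureFalse

open Filter Topology

/-- `s + B_d`, where `B_d = {d, 2d, ..., nd}` -/
def shiftB (n d : ℕ) (s : ℤ) : Set ℤ := {x | ∃ i : ℕ, 1 ≤ i ∧ i ≤ n ∧ x = s + i * d}

/-- the sets `B_1, ..., B_n` pack into `[m] = {1, ..., m}` -/
def PacksInto (n m : ℕ) : Prop :=
  ∃ s : ℕ → ℤ, (∀ d ∈ Set.Icc 1 n, shiftB n d (s d) ⊆ Set.Icc 1 (m : ℤ)) ∧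
    ∀ d ∈ Set.Icc 1 n, ∀ e ∈ Set.Icc 1 n, d ≠ e → shiftB n d (s d) ∩ shiftB n e (s e) = ∅

/-- `M(n)`: the least `m` such that `B_1, ..., B_n` pack into `[m]` -/
noncomputable def M (n : ℕ) : ℕ := sInf {m : ℕ | PacksInto n m}

open Pool.Agent.X25.Pk in
lemma packs_iff (n m : ℕ) : PacksInto n m ↔ Packs (Finset.Icc 1 n) (fun _ => n) m := by
  have hmem : ∀ p, p ∈ Finset.Icc 1 n ↔ p ∈ Set.Icc 1 n := by
    intro p
    rw [Finset.mem_Icc, Set.mem_Icc]
  constructor
  · rintro ⟨s, h1, h2⟩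
    refine ⟨s, ?_, ?_⟩
    · intro d hd i hi hi'
      have := h1 d ((hmem d).1 hd) (⟨i, hi, hi', rfl⟩ : s d + i * d ∈ shiftB n d (s d))
      exact this
    · intro d hd e he hde i j hi hi' hj hj' heq
      have h3 := h2 d ((hmem d).1 hd) e ((hmem e).1 he) hde
      have h4 : s d + i * d ∈ shiftB n d (s d) ∩ shiftB n e (s e) :=
        ⟨⟨i, hi, hi', rfl⟩, ⟨j, hj, hj', heq⟩⟩
      rw [h3] at h4
      exact h4
  · rintro ⟨s, h1, h2⟩
    refine ⟨s, ?_, ?_⟩
    · rintro d hd x ⟨i, hi, hi', rfl⟩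
      exact h1 d ((hmem d).2 hd) i hi hi'
    · intro d hd e he hde
      rw [Set.eq_empty_iff_forall_notMem]
      rintro x ⟨⟨i, hi, hi', rfl⟩, ⟨j, hj, hj', heq⟩⟩
      exact h2 d ((hmem d).2 hd) e ((hmem e).2 he) hde i j hi hi' hj hj' heq

/-- **The conjecture `M(n) ~ n³ / (6 ln n)` is false:** `liminf M(n) ln n / n³ ≥ 19/108`, that is, for every
`c < 19/108` we have `M(n) ln n / n³ > c` for all large `n`; and `M(n) ln n / n³` does not tend to `1/6`. -/
theorem result : (∀ c : ℝ, c < 19 / 108 → ∀ᶠ n : ℕ in atTop, c < (M n : ℝ) * Real.log n / (n : ℝ) ^ 3) ∧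
    ¬ Tendsto (fun n : ℕ => (M n : ℝ) * Real.log n / (n : ℝ) ^ 3) atTop (𝓝 (1 / 6)) := by
  have hM : ∀ n, M n = Pool.Agent.X25.Pk.ML (Finset.Icc 1 n) (fun _ => n) := by
    intro n
    unfold M Pool.Agent.X25.Pk.ML
    congr 1
    ext m
    exact packs_iff n m
  have h1 : ∀ c : ℝ, c < 19 / 108 → ∀ᶠ n : ℕ in atTop, c < (M n : ℝ) * Real.log n / (n : ℝ) ^ 3 := by
    intro c hc
    filter_upwards [Pool.Agent.X25.Pk.prob3 c hc] with n hn
    rw [hM]
    exact hn
  refine ⟨h1, fun h => ?_⟩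
  have h2 := h1 (1 / 6 + 1 / 216) (by norm_num)
  have h3 := h.eventually (gt_mem_nhds (show (1 / 6 : ℝ) < 1 / 6 + 1 / 216 by norm_num))
  obtain ⟨n, h4, h5⟩ := (h2.and h3).exists
  linarith

end Pool.Agent.Results.MP_0e9c37_co.ConjectureFalse
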